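import Pool.Agent.Run7.h555.P15.Gs

/-!
The `L`-function and the central value of the twist by `-n` (`n` squarefree, `3` modulo `4`) of a
newform of weight two and level prime to `n`, in terms of an integral symbol: the general form of
`exists_Lex` in `Run7/h555/P15/Gs.lean`.
-/

set_option autoImplicit false
set_option linter.style.haveILetI false
set_option linter.unusedSectionVars false

open Complex Filter Topology Set UpperHalfPlane MatrixGroups CongruenceSubgroup ZMod

namespace Run7.h555.TL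

open Run7.h555.P15 (Facts Bd gauss_jac sum_un)
open Pool.Agent.Y682.XF (kr)

section sum

variable {n : ℕ} [NeZero n] {J : ℚ → ℂ} (J1 : ∀ r : ℚ, J (r + 1) = J r)
  (Jc : ∀ r : ℚ, J (-r) = (starRingEnd ℂ) (J r))

include J1

lemma val_neg' (h1 : 1 < n) (u : (ZMod n)ˣ) :
    J ((((-u : (ZMod n)ˣ) : ZMod n).val : ℚ) / n) = J (-(((u : ZMod n).val : ℚ) / n)) := by
  have hn0 : (n : ℚ) ≠ 0 := by exact_mod_cast NeZero.ne n
  have hu : (u : ZMod n) ≠ 0 := by
    have : Fact (1 < n) := ⟨h1⟩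
    exact u.ne_zero
  have e : (((-u : (ZMod n)ˣ) : ZMod n)).val = n - (u : ZMod n).val := by
    rw [Units.val_neg, ZMod.neg_val, if_neg hu]
  have hle : (u : ZMod n).val ≤ n := (ZMod.val_lt _).le
  rw [e, Nat.cast_sub hle, sub_div, div_self hn0]
  rw [← J1 (-(((u : ZMod n).val : ℚ) / n))]
  congr 1
  ring

include Jc

/-- the sum of the periods for an odd real character -/
theorem sum_odd (h1 : 1 < n) (δ : DirichletCharacter ℂ n) (hodd : δ (-1) = -1)
    (j : ZMod n → ℤ) (hδ : ∀ u : (ZMod n)ˣ, δ (u : ZMod n) = (j u : ℂ)) :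
    ∑ u : (ZMod n)ˣ, δ (u : ZMod n) * J (((u : ZMod n).val : ℚ) / n) =
      Complex.I * ((∑ u : (ZMod n)ˣ, (j u : ℝ) * (J (((u : ZMod n).val : ℚ) / n)).im : ℝ) : ℂ) := by
  set S := ∑ u : (ZMod n)ˣ, δ (u : ZMod n) * J (((u : ZMod n).val : ℚ) / n) with hS
  have hc : (starRingEnd ℂ) S = -S := by
    rw [hS, map_sum, ← Finset.sum_neg_distrib, ← Equiv.sum_comp (Equiv.neg (ZMod n)ˣ)]
    refine Finset.sum_congr rfl fun u _ => ?_
    rw [Equiv.neg_apply, map_mul, val_neg' J1 h1, Jc, Complex.conj_conj]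
    have e1 : (starRingEnd ℂ) (δ (((-u : (ZMod n)ˣ)) : ZMod n)) = -δ (u : ZMod n) := by
      rw [hδ, map_intCast, ← hδ, Units.val_neg, ← neg_one_mul, map_mul, hodd, neg_one_mul]
    rw [e1, neg_mul]
  have hre : S.re = 0 := by
    have := congrArg Complex.re hc
    rw [Complex.conj_re, Complex.neg_re] at this
    linarith
  have him : S.im = ∑ u : (ZMod n)ˣ, (j u : ℝ) * (J (((u : ZMod n).val : ℚ) / n)).im := by
    rw [hS, Complex.im_sum]
    refine Finset.sum_congr rfl fun u _ => ?_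
    rw [hδ]
    have e : ((j u : ℤ) : ℂ) = (((j u : ℤ) : ℝ) : ℂ) := by push_cast; rfl
    rw [e, Complex.im_ofReal_mul]
  apply Complex.ext
  · rw [hre]; simp
  · rw [him]; simp

end sum

/-- the Euler factor -/
noncomputable def eul (N n : ℕ) (a : ℕ → ℤ) (s : ℂ) (p : ℕ) : ℂ :=
  (1 - (a p : ℂ) * (p : ℂ) ^ (-s) + if p ∣ N * n then 0 else (p : ℂ) ^ (1 - 2 * s))⁻¹

/-- **the `L`-function of the twist by `-n` and its central value** -/
theorem exists_L {N : ℕ} [NeZero N] {f : CuspForm (Gamma0 N : Subgroup (GL (Fin 2) ℝ)) 2}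
    {a : ℕ → ℤ} (H : Facts N f a) {J : ℚ → ℂ} (hJ : Bd f J)
    (J1 : ∀ r : ℚ, J (r + 1) = J r) (Jc : ∀ r : ℚ, J (-r) = (starRingEnd ℂ) (J r))
    {κ : ℝ} {Fp : ℤ → ℤ → ℤ}
    (Jim : ∀ u n : ℤ, 0 < n → IsCoprime u n → IsCoprime n (N : ℤ) →
      (J ((u : ℚ) / n)).im = κ * (Fp u n : ℝ))
    {n : ℕ} (hn : Squarefree n) (h4 : n % 4 = 3) (hco : n.Coprime N)
    {a' : ℕ → ℤ} (ha' : ∀ p : ℕ, p.Prime → a' p = kr (-(n : ℤ)) p * a p) :
    ∃ F : ℂ → ℂ, Differentiable ℂ F ∧
      (∀ s : ℂ, 3 / 2 < s.re →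
        HasProd (fun p : ℕ => if p.Prime then eul N n a' s p else 1) (F s)) ∧
      F 1 * ((√n : ℝ) : ℂ) = ((κ * ((∑ u ∈ Pool.Agent.N969.P15.un n, jacobiSym u n *
          Fp u n : ℤ) : ℝ) : ℝ) : ℂ) := by
  have : NeZero n := ⟨hn.ne_zero⟩
  have h1 : 1 < n := by omega
  have hD4 : (-(n : ℤ)) % 4 = 1 := by omega
  have hDs : Squarefree (-(n : ℤ)) := by
    rw [← Int.squarefree_natAbs]
    simpa using hn
  obtain ⟨δ, hprim, hδp, hδ1, hδu⟩ := Pool.Agent.Y812.XF.t_KD (-(n : ℤ)) hDs hD4 n (by simp)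
  have hodd : δ (-1) = -1 := by
    rw [hδ1, if_neg (by omega)]
  have hu : ∀ u : (ZMod n)ˣ, δ (u : ZMod n) = 1 ∨ δ (u : ZMod n) = -1 := by
    intro u
    rw [hδu u]
    have hc : IsCoprime ((((u : ZMod n).val : ℕ)) : ℤ) (n : ℤ) :=
      Nat.isCoprime_iff_coprime.2 (ZMod.val_coe_unit_coprime u)
    have h2 := jacobiSym.eq_one_or_neg_one (Int.isCoprime_iff_gcd_eq_one.1 hc)
    rcases h2 with h2 | h2
    · left; rw [h2]; norm_num
    · right; rw [h2]; norm_num
  have hquad : δ.IsQuadratic := by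
    intro x
    by_cases hx : IsUnit x
    · obtain ⟨u, rfl⟩ := hx
      exact Or.inr (hu u)
    · exact Or.inl (MulChar.map_nonunit δ hx)
  have hinv : δ⁻¹ = δ := hquad.inv
  have hreal : ∀ x : ZMod n, (starRingEnd ℂ) (δ x) = δ x := by
    intro x
    rcases hquad x with h | h | h <;> rw [h] <;> simp
  obtain ⟨g, hg, hprod, hval⟩ := H.exists_L hJ hco δ hprim
  rw [hinv] at hval
  have hall : ∀ x : ZMod n, δ x = ((jacobiSym (x.val : ℤ) n : ℤ) : ℂ) := by
    intro x
    by_cases hx : IsUnit x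
    · obtain ⟨u, rfl⟩ := hx
      exact hδu u
    · rw [MulChar.map_nonunit δ hx]
      have h0 : jacobiSym (x.val : ℤ) n = 0 := by
        rw [jacobiSym.eq_zero_iff_not_coprime]
        intro hc
        apply hx
        have hc' : Nat.Coprime x.val n := by
          have h7 : Int.gcd ((x.val : ℕ) : ℤ) (n : ℤ) = Nat.gcd x.val n := Int.gcd_natCast_natCast _ _
          rw [h7] at hc
          exact hc
        have h3 := (ZMod.isUnit_iff_coprime x.val n).2 hc'
        rwa [ZMod.natCast_zmod_val] at h3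
      rw [h0]
      norm_num
  have hgs := gauss_jac hn (Nat.odd_iff.2 (by omega)) δ hprim hodd hreal hall
  have hsum := sum_odd J1 Jc h1 δ hodd (fun x => jacobiSym (x.val : ℤ) n) hδu
  refine ⟨g, hg, ?_, ?_⟩
  · intro s hs
    have h2 := hprod s hs
    have hinj : Function.Injective (fun p : Nat.Primes => (p : ℕ)) := fun a b h => Subtype.ext h
    rw [← Function.Injective.hasProd_iff hinj]
    · have e1 : ((fun p : ℕ => if p.Prime then eul N n a' s p else 1) ∘ fun p : Nat.Primes => (p : ℕ)) =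
          fun p : Nat.Primes => (1 - (a p : ℂ) * δ p * (p : ℂ) ^ (-s) +
            (if (p : ℕ) ∣ N then 0 else (p : ℂ)) * (δ p) ^ 2 * (p : ℂ) ^ (-2 * s))⁻¹ := by
        funext p
        have hp := p.2
        have hp0 : ((p : ℕ) : ℂ) ≠ 0 := by exact_mod_cast hp.ne_zero
        show (if (p : ℕ).Prime then eul N n a' s p else 1) = _
        rw [if_pos hp]
        unfold eul
        have e2 : ((a' p : ℤ) : ℂ) = (a p : ℂ) * δ p := by
          rw [ha' p hp, hδp p hp]
          push_cast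
          ring
        have e3 : (if (p : ℕ) ∣ N * n then (0 : ℂ) else (p : ℂ) ^ (1 - 2 * s)) =
            (if (p : ℕ) ∣ N then 0 else (p : ℂ)) * (δ p) ^ 2 * (p : ℂ) ^ (-2 * s) := by
          have e4 : (p : ℂ) ^ (1 - 2 * s) = (p : ℂ) * (p : ℂ) ^ (-2 * s) := by
            rw [sub_eq_add_neg, Complex.cpow_add _ _ hp0, Complex.cpow_one, neg_mul]
          by_cases h15 : (p : ℕ) ∣ N
          · rw [if_pos (Dvd.dvd.mul_right h15 n), if_pos h15, zero_mul, zero_mul]
          · by_cases hpn : (p : ℕ) ∣ n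
            · rw [if_pos (Dvd.dvd.mul_left hpn N)]
              have h0 : δ (p : ℕ) = 0 := by
                apply MulChar.map_nonunit
                rw [ZMod.isUnit_iff_coprime]
                intro hc
                exact (hp.coprime_iff_not_dvd.1 hc) hpn
              rw [h0]
              ring
            · have h15n : ¬ (p : ℕ) ∣ N * n := fun h => by
                rcases hp.dvd_mul.1 h with h | h
                · exact h15 h
                · exact hpn h
              rw [if_neg h15n, if_neg h15, e4]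
              have h2 : (δ (p : ℕ)) ^ 2 = 1 := by
                have hc : (p : ℕ).Coprime n := hp.coprime_iff_not_dvd.2 hpn
                have h3 := hu (ZMod.unitOfCoprime p hc)
                rw [ZMod.coe_unitOfCoprime] at h3
                rcases h3 with h3 | h3
                · rw [h3]; norm_num
                · rw [h3]; norm_num
              rw [h2]
              ring
        rw [e2, e3]
      rw [e1]
      exact h2
    · intro p hp
      rw [if_neg]
      intro h
      exact hp ⟨⟨p, h⟩, rfl⟩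
  · have h2 : ((∑ u : (ZMod n)ˣ, ((jacobiSym ((u : ZMod n).val : ℤ) n : ℤ) : ℝ) *
        (J (((u : ZMod n).val : ℚ) / n)).im : ℝ)) =
        κ * ((∑ u ∈ Pool.Agent.N969.P15.un n, jacobiSym u n * Fp u n : ℤ) : ℝ) := by
      have h3 := sum_un (n := n)
        (fun u => ((jacobiSym (u : ℤ) n : ℤ) : ℝ) * (J ((u : ℚ) / n)).im) h1
      beta_reduce at h3
      rw [h3]
      push_cast
      rw [Finset.mul_sum]
      refine Finset.sum_congr rfl fun u hu' => ?_
      rw [Pool.Agent.N969.P15.un, Finset.mem_filter] at hu'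
      have hn0 : (0 : ℤ) < n := by omega
      have h4 := Jim (u : ℤ) (n : ℤ) hn0 (Nat.isCoprime_iff_coprime.2 hu'.2)
        (Nat.isCoprime_iff_coprime.2 hco)
      push_cast at h4
      rw [h4]
      ring
    rw [hgs, hsum, h2] at hval
    have h5 := mul_left_cancel₀ Complex.I_ne_zero ((mul_assoc _ _ _).symm.trans hval)
    rw [mul_comm, h5]

end Run7.h555.TL
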